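import Pool.Agent.Y300.KS.Stm

/-! KS-GD: the probability of a good cell. -/

open Set MeasureTheory ProbabilityTheory Filter Topology

set_option autoImplicit false

namespace Pool.Agent.Y210.KS

open Pool.Agent.K300 Pool.Agent.Y300.KS

/-- index of the independent pieces of a cell -/
abbrev Jy (N : ℕ) := (Fin 2 × Cx N) ⊕ Fin 2

def pS (n I J G N : ℕ) : Jy N → Finset Ix
  | Sum.inl cq => ({cq.1} : Finset (Fin 2)) ×ˢ kc n I J G cq.2
  | Sum.inr c => ({c} : Finset (Fin 2)) ×ˢ rst n I J G N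

def pE (n I J G N : ℕ) (B : ℝ) (v : Fin 2 → Cx N → ℤ) : Jy N → Set (Ix → ℝ)
  | Sum.inl cq => EvC n I J G B cq.1 cq.2 (v cq.1 cq.2)
  | Sum.inr c => EvR n I J G N B c

lemma depOn_pE (hd : S_DEP) (n I J G N : ℕ) (B : ℝ) (v : Fin 2 → Cx N → ℤ) (j : Jy N) :
    DepOn (pS n I J G N j) (pE n I J G N B v j) := by
  rcases j with cq | c
  · exact (hd n I J G N B cq.1).1 cq.2 (v cq.1 cq.2)
  · exact (hd n I J G N B c).2.1

lemma GdE_eq (n I J G N : ℕ) (B : ℝ) (v : Fin 2 → Cx N → ℤ) :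
    GdE n I J G N B v = ⋂ j ∈ (Finset.univ : Finset (Jy N)), pE n I J G N B v j := by
  ext ξ
  simp only [GdE, mem_ofPred_eq, mem_iInter]
  constructor
  · intro h j _
    rcases j with cq | c
    · exact (h cq.1).1 cq.2
    · exact (h c).2
  · intro h c
    exact ⟨fun q => h (Sum.inl (c, q)) (Finset.mem_univ _), h (Sum.inr c) (Finset.mem_univ _)⟩

lemma pS_disjoint {n I J G N : ℕ}
    (hd : ∀ q q' : Cx N, q ≠ q' → Disjoint (kc n I J G q) (kc n I J G q')) (i j : Jy N)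
    (hij : i ≠ j) : Disjoint (pS n I J G N i) (pS n I J G N j) := by
  have h1 : ∀ (c c' : Fin 2) (q : Cx N), Disjoint
      (({c} : Finset (Fin 2)) ×ˢ kc n I J G q) (({c'} : Finset (Fin 2)) ×ˢ rst n I J G N) := by
    intro c c' q
    rw [Finset.disjoint_product]
    right
    rw [Finset.disjoint_left]
    intro m hm hm'
    exact (Finset.mem_sdiff.1 hm').2 (Finset.mem_biUnion.2 ⟨q, Finset.mem_univ _, hm⟩)
  rcases i with ⟨c, q⟩ | c <;> rcases j with ⟨c', q'⟩ | c'
  · simp only [pS]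
    rw [Finset.disjoint_product]
    by_cases hc : c = c'
    · right
      refine hd q q' fun hq => hij ?_
      rw [hc, hq]
    · left
      simpa using hc
  · exact h1 c c' q
  · exact (h1 c' c q').symm
  · simp only [pS]
    rw [Finset.disjoint_product]
    left
    simpa using fun hc : c = c' => hij (by rw [hc])

theorem gd_all.{u} (hb : S_BLK) (hd : S_DEP) (hc : S_PC.{u}) (hr : S_PR.{u}) : S_GD.{u} := by
  intro A G N hG
  obtain ⟨p, hp0, hp⟩ := hc A G N hG
  obtain ⟨n₁, hn₁⟩ := hb G N 0 hG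
  have hpj0 : ∀ j : Jy N, 0 < Sum.elim (fun _ : Fin 2 × Cx N => p) (fun _ : Fin 2 => (1/2 : ℝ)) j := by
    rintro (cq | c)
    · exact hp0
    · simp
  refine ⟨∏ j : Jy N, Sum.elim (fun _ : Fin 2 × Cx N => p) (fun _ : Fin 2 => (1/2 : ℝ)) j,
    Finset.prod_pos fun j _ => hpj0 j, ?_⟩
  intro Ω _ P _ X ν _ h B hB
  obtain ⟨n₂, hn₂⟩ := hp P X ν h B hB
  obtain ⟨n₃, hn₃⟩ := hr P X ν h B hB
  refine ⟨max n₁ (max n₂ n₃), fun n hn I J hcen v hv => ?_⟩
  have h1 : n₁ ≤ n := (le_max_left _ _).trans hn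
  have h2 : n₂ ≤ n := ((le_max_left _ _).trans (le_max_right _ _)).trans hn
  have h3 : n₃ ≤ n := ((le_max_right _ _).trans (le_max_right _ _)).trans hn
  obtain ⟨hk, hdis⟩ := hn₁ n h1 I J hcen
  rw [GdE_eq]
  constructor
  · refine DepOn.biInter _ fun j _ => (depOn_pE hd n I J G N B v j).mono ?_
    rcases j with ⟨c, q⟩ | c
    · intro i hi
      have := (Finset.mem_product.1 hi).2
      exact Finset.mem_product.2 ⟨Finset.mem_univ _, (hk q).2.1 this⟩
    · intro i hi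
      have := (Finset.mem_product.1 hi).2
      exact Finset.mem_product.2 ⟨Finset.mem_univ _, (Finset.mem_sdiff.1 this).1⟩
  · rw [DepOn.prod h.meas h.indep Finset.univ (pS_disjoint hdis) (depOn_pE hd n I J G N B v)]
    refine Finset.prod_le_prod (fun j _ => (hpj0 j).le) ?_
    rintro (cq | c) _
    · exact hn₂ n h2 I J hcen cq.1 cq.2 (v cq.1 cq.2) (hv _ _)
    · exact hn₃ n h3 I J hcen G N c

end Pool.Agent.Y210.KS
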